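import Pool.Agent.W2helper66.FD.Words

/-!
# Project FD, piece TAIL
-/

set_option autoImplicit false

open MeasureTheory ProbabilityTheory Filter Topology
open scoped ENNReal NNReal

namespace Pool.Agent.W2helper66.FD

open Pool.Agent.W2helper75.FD

section qq

variable {X S : Type} [Fintype S] (mx : X → S → X)

theorem qq_nonneg (o : X) (k : ℕ) (x : X) : 0 ≤ qq mx o k x := by
  classical
  induction k generalizing x with
  | zero =>
    unfold qq
    split_ifs <;> norm_num
  | succ k ih =>
    unfold qq
    exact div_nonneg (Finset.sum_nonneg (fun s _ => ih _)) (Nat.cast_nonneg _)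

/-- Chapman-Kolmogorov, one direction -/
theorem qq_mul_le (o z : X) (n k : ℕ) (x : X) :
    qq mx z n x * qq mx o k z ≤ qq mx o (n + k) x := by
  classical
  induction n generalizing x with
  | zero =>
    rw [zero_add]
    change (if x = z then (1 : ℝ) else 0) * _ ≤ _
    split_ifs with h
    · rw [h, one_mul]
    · rw [zero_mul]
      exact qq_nonneg mx o k x
  | succ n ih =>
    rw [Nat.succ_add]
    change (∑ s, qq mx z n (mx x s)) / (Fintype.card S : ℝ) * _ ≤
      (∑ s, qq mx o (n + k) (mx x s)) / (Fintype.card S : ℝ)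
    rw [div_mul_eq_mul_div, Finset.sum_mul]
    apply div_le_div_of_nonneg_right _ (Nat.cast_nonneg _)
    exact Finset.sum_le_sum (fun s _ => ih _)

theorem qq_run_pos [Nonempty S] (z : X) (l : List S) :
    0 < qq mx (l.foldl mx z) l.length z := by
  classical
  induction l generalizing z with
  | nil =>
    change (0 : ℝ) < if z = z then 1 else 0
    simp
  | cons s l ih =>
    rw [List.foldl_cons, List.length_cons]
    change 0 < (∑ s', qq mx (l.foldl mx (mx z s)) l.length (mx z s')) / (Fintype.card S : ℝ)
    have hc : (0 : ℝ) < Fintype.card S := by exact_mod_cast Fintype.card_pos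
    apply div_pos _ hc
    refine lt_of_lt_of_le (ih (mx z s)) ?_
    exact Finset.single_le_sum (f := fun s' => qq mx (l.foldl mx (mx z s)) l.length (mx z s'))
      (fun s' _ => qq_nonneg mx _ _ _) (Finset.mem_univ s)

end qq

theorem tail (h1 : P_TRN) (h2 : P_QQ) : P_TAIL := by
  intro Γ _ S _ _ _ hS hgen h B t b hA L
  have hom := hA.hom
  have h10 : h 1 = 0 := by
    have := hom 1 1
    rw [mul_one] at this
    omega
  -- the coset walk
  let mx : Quotient (QuotientGroup.rightRel B) → S → Quotient (QuotientGroup.rightRel B) :=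
    fun q s => Quotient.map' (fun g => g * (s : Γ)) (by
      intro x y hxy
      rw [QuotientGroup.rightRel_apply] at hxy ⊢
      have : y * (s : Γ) * (x * (s : Γ))⁻¹ = y * x⁻¹ := by group
      rw [this]
      exact hxy) q
  let cl : Γ → Quotient (QuotientGroup.rightRel B) := fun g => Quotient.mk'' g
  have hmx : ∀ g (s : S), mx (cl g) s = cl (g * s) := fun g s => rfl
  have hcl : ∀ x y, cl x = cl y ↔ y * x⁻¹ ∈ B := by
    intro x y
    simp only [cl]
    rw [Quotient.eq'']
    exact QuotientGroup.rightRel_apply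
  have hsurj : ∀ q, ∃ g, cl g = q := fun q => Quotient.exists_rep q
  let inv : S → S := fun s => ⟨(s : Γ)⁻¹, hS _ s.2⟩
  have hfold : ∀ (l : List S) (g : Γ), l.foldl mx (cl g) =
      cl (g * (l.map (fun s : S => (s : Γ))).prod) := by
    intro l
    induction l with
    | nil => intro g; simp
    | cons s l ih =>
      intro g
      rw [List.foldl_cons, hmx, ih, List.map_cons, List.prod_cons, mul_assoc]
  obtain ⟨w0, hw0⟩ := exists_word S hS hgen t⁻¹
  obtain ⟨w1, hw1⟩ := exists_word S hS hgen (t⁻¹ * b)
  let w : Bool → List S := fun a => cond a w1 w0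
  let be : Bool → Γ := fun a => cond a b 1
  have hw : ∀ a, ((w a).map (fun s : S => (s : Γ))).prod = t⁻¹ * be a := by
    intro a
    cases a
    · change (w0.map (fun s : S => (s : Γ))).prod = t⁻¹ * 1
      rw [mul_one]
      exact hw0
    · exact hw1
  have hbe : ∀ a, be a ∈ B := by
    intro a
    cases a
    · exact B.one_mem
    · exact hA.hb
  -- the representatives
  let gg : List Bool → Γ := fun u => u.rec 1 (fun a _ g => g * (t⁻¹ * be a))
  have hgg0 : gg [] = 1 := rfl
  have hgg1 : ∀ a u, gg (a :: u) = gg u * (t⁻¹ * be a) := fun a u => rfl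
  have hvtx : ∀ u, vtx mx (cl 1) w u = cl (gg u) := by
    intro u
    induction u with
    | nil => rfl
    | cons a u ih =>
      change run mx (vtx mx (cl 1) w u) (w a) = _
      rw [ih, hgg1]
      unfold run
      rw [hfold, hw]
  have hform : ∀ u, ∃ γ ∈ B, gg u = (t ^ u.length)⁻¹ * γ := by
    intro u
    induction u with
    | nil => exact ⟨1, B.one_mem, by simp [hgg0]⟩
    | cons a u ih =>
      obtain ⟨γ, hγ, hu⟩ := ih
      refine ⟨t * γ * t⁻¹ * be a, B.mul_mem (hA.conj γ hγ) (hbe a), ?_⟩
      rw [hgg1, hu, List.length_cons, pow_succ']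
      group
  have hpow : ∀ (k : ℕ), ∀ x ∈ B, t ^ k * x * (t ^ k)⁻¹ ∈ B := by
    intro k
    induction k with
    | zero => intro x hx; simpa using hx
    | succ k ih =>
      intro x hx
      have : t ^ (k + 1) * x * (t ^ (k + 1))⁻¹ = t * (t ^ k * x * (t ^ k)⁻¹) * t⁻¹ := by
        rw [pow_succ']
        group
      rw [this]
      exact hA.conj _ (ih x hx)
  have hdist : ∀ u u' : List Bool, u.length = u'.length →
      vtx mx (cl 1) w u = vtx mx (cl 1) w u' → u = u' := by
    intro u
    induction u with
    | nil =>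
      intro u' hlen _
      exact (List.length_eq_zero_iff.1 hlen.symm).symm
    | cons a u ih =>
      intro u' hlen heq
      cases u' with
      | nil => simp at hlen
      | cons a' u' =>
        have hlen' : u.length = u'.length := by simpa using hlen
        rw [hvtx, hvtx, hcl, hgg1, hgg1] at heq
        obtain ⟨γ, hγ, hu⟩ := hform u
        obtain ⟨γ', hγ', hu'⟩ := hform u'
        -- the middle part
        have hmid : t⁻¹ * (be a' * (be a)⁻¹) * t ∈ B := by
          have h3 := hpow u.length _ heq
          have h4 : t ^ u.length * (gg u' * (t⁻¹ * be a') * (gg u * (t⁻¹ * be a))⁻¹) *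
              (t ^ u.length)⁻¹ = γ' * (t⁻¹ * (be a' * (be a)⁻¹) * t) * γ⁻¹ := by
            rw [hu, hu', ← hlen']
            group
          rw [h4] at h3
          have h5 := B.mul_mem (B.mul_mem (B.inv_mem hγ') h3) hγ
          have h6 : γ'⁻¹ * (γ' * (t⁻¹ * (be a' * (be a)⁻¹) * t) * γ⁻¹) * γ =
              t⁻¹ * (be a' * (be a)⁻¹) * t := by group
          rw [h6] at h5
          exact h5
        have haa : a = a' := by
          by_contra hne
          cases a <;> cases a'
          · exact hne rfl
          · have h7 : t⁻¹ * (b * (1 : Γ)⁻¹) * t ∈ B := hmid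
            rw [inv_one, mul_one] at h7
            exact hA.strict h7
          · have h7 : (t⁻¹ * ((1 : Γ) * b⁻¹) * t)⁻¹ ∈ B := B.inv_mem hmid
            have h8 : (t⁻¹ * ((1 : Γ) * b⁻¹) * t)⁻¹ = t⁻¹ * b * t := by group
            rw [h8] at h7
            exact hA.strict h7
          · exact hne rfl
        subst haa
        have hrest : gg u' * (gg u)⁻¹ ∈ B := by
          have h9 : gg u' * (t⁻¹ * be a) * (gg u * (t⁻¹ * be a))⁻¹ = gg u' * (gg u)⁻¹ := by group
          rw [h9] at heq
          exact heq
        rw [ih u' hlen' (by rw [hvtx, hvtx, hcl]; exact hrest)]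
  obtain ⟨C, hC⟩ := h1 (Quotient (QuotientGroup.rightRel B)) S mx inv
    (by intro s; apply Subtype.ext; simp [inv])
    (by
      intro x s
      obtain ⟨g, rfl⟩ := hsurj x
      rw [hmx, hmx]
      simp [inv])
    (cl 1) w hdist
  -- the walk on the cosets
  have hpos : ∀ (c : ℕ → S) (n : ℕ), pth mx (cl 1) c n = cl (pos c n) := by
    intro c n
    induction n with
    | zero => rfl
    | succ n ih =>
      change mx (pth mx (cl 1) c n) (c n) = cl (pth (mg S) 1 c n * (c n : Γ))
      rw [ih, hmx]
      rfl
  -- each level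
  have hlev : ∀ m : ℕ, ∑' n : ℕ, mlaw S {c | pth mx (cl 1) c n = cl (t ^ m)} ≠ ⊤ := by
    intro m
    obtain ⟨l, hl⟩ := exists_word S hS hgen ((t ^ m)⁻¹)
    have hl2 : l.foldl mx (cl (t ^ m)) = cl 1 := by
      rw [hfold, hl, mul_inv_cancel]
    have hε := qq_run_pos mx (cl (t ^ m)) l
    rw [hl2] at hε
    set ε := qq mx (cl 1) l.length (cl (t ^ m)) with hεd
    have hbound : ∀ N : ℕ, ∑ n ∈ Finset.range N, qq mx (cl (t ^ m)) n (cl 1) ≤ C / ε := by
      intro N
      rw [le_div_iff₀ hε, Finset.sum_mul]
      calc ∑ n ∈ Finset.range N, qq mx (cl (t ^ m)) n (cl 1) * ε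
          ≤ ∑ n ∈ Finset.range N, qq mx (cl 1) (n + l.length) (cl 1) :=
            Finset.sum_le_sum (fun n _ => qq_mul_le mx _ _ _ _ _)
        _ = ∑ n ∈ Finset.Ico l.length (l.length + N), qq mx (cl 1) n (cl 1) := by
            rw [Finset.sum_Ico_eq_sum_range]
            have : l.length + N - l.length = N := by omega
            rw [this]
            apply Finset.sum_congr rfl
            intro n _
            rw [add_comm]
        _ ≤ ∑ n ∈ Finset.range (l.length + N), qq mx (cl 1) n (cl 1) := by
            apply Finset.sum_le_sum_of_subset_of_nonneg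
            · intro n hn
              rw [Finset.mem_Ico] at hn
              exact Finset.mem_range.2 hn.2
            · intro n _ _
              exact qq_nonneg mx _ _ _
        _ ≤ C := hC _
    apply ne_top_of_le_ne_top (ENNReal.ofReal_ne_top (r := C / ε))
    apply ENNReal.tsum_le_of_sum_range_le
    intro N
    calc ∑ n ∈ Finset.range N, mlaw S {c | pth mx (cl 1) c n = cl (t ^ m)}
        = ∑ n ∈ Finset.range N, ENNReal.ofReal (qq mx (cl (t ^ m)) n (cl 1)) :=
          Finset.sum_congr rfl (fun n _ => h2 _ S mx _ _ _)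
      _ = ENNReal.ofReal (∑ n ∈ Finset.range N, qq mx (cl (t ^ m)) n (cl 1)) := by
          rw [ENNReal.ofReal_sum_of_nonneg (fun n _ => qq_nonneg mx _ _ _)]
      _ ≤ ENNReal.ofReal (C / ε) := ENNReal.ofReal_le_ofReal (hbound N)
  -- the union of the levels
  have hsub : ∀ n : ℕ, mlaw S {c | pos c n ∈ cone h B t ∧ h (pos c n) < L} ≤
      ∑ m ∈ Finset.range L.toNat, mlaw S {c | pth mx (cl 1) c n = cl (t ^ m)} := by
    intro n
    refine le_trans (measure_mono ?_) (measure_biUnion_finset_le _ _)
    rintro c ⟨⟨hc1, hc2⟩, hc3⟩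
    rw [Set.mem_iUnion₂]
    refine ⟨(h (pos c n)).toNat, ?_, ?_⟩
    · rw [Finset.mem_range]
      omega
    · change pth mx (cl 1) c n = cl (t ^ (h (pos c n)).toNat)
      rw [hpos, hcl]
      have h3 : t ^ (h (pos c n)).toNat * (pos c n)⁻¹ = (pos c n * t ^ (-h (pos c n)))⁻¹ := by
        rw [mul_inv_rev, zpow_neg, inv_inv]
        congr 1
        rw [← zpow_natCast, Int.toNat_of_nonneg hc1]
      rw [h3]
      exact B.inv_mem hc2
  apply ne_top_of_le_ne_top _ (ENNReal.tsum_le_tsum hsub)
  rw [Summable.tsum_finsetSum (fun m _ => ENNReal.summable)]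
  exact ENNReal.sum_ne_top.2 (fun m _ => hlev m)

end Pool.Agent.W2helper66.FD
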