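import Pool.Agent.W2helper66.FD.Words

/-!
# Project FD, piece OSC
-/

set_option autoImplicit false

open MeasureTheory ProbabilityTheory Filter Topology
open scoped ENNReal NNReal

namespace Pool.Agent.W2helper66.FD

open Pool.Agent.W2helper75.FD

/-- the cutoff -/
noncomputable def ct (y : ℤ) (R : ℝ) (x : ℤ) : ℝ := max 0 (1 - |(x : ℝ) - y| / R)

theorem ct_lip (y : ℤ) (R : ℝ) (hR : 0 < R) (x w : ℤ) :
    |ct y R x - ct y R (x + w)| ≤ |(w : ℝ)| / R := by
  unfold ct
  have h1 : |max 0 (1 - |(x : ℝ) - y| / R) - max 0 (1 - |((x + w : ℤ) : ℝ) - y| / R)| ≤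
      |(1 - |(x : ℝ) - y| / R) - (1 - |((x + w : ℤ) : ℝ) - y| / R)| := by
    have := abs_max_sub_max_le_abs (1 - |(x : ℝ) - y| / R) (1 - |((x + w : ℤ) : ℝ) - y| / R) 0
    rw [max_comm _ (0 : ℝ), max_comm _ (0 : ℝ)] at this
    exact this
  refine h1.trans ?_
  have h2 : (1 - |(x : ℝ) - y| / R) - (1 - |((x + w : ℤ) : ℝ) - y| / R) =
      (|((x + w : ℤ) : ℝ) - y| - |(x : ℝ) - y|) / R := by ring
  rw [h2, abs_div, abs_of_pos hR]
  apply div_le_div_of_nonneg_right _ hR.le
  refine (abs_abs_sub_abs_le_abs_sub _ _).trans ?_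
  have h3 : ((x + w : ℤ) : ℝ) - y - ((x : ℝ) - y) = (w : ℝ) := by push_cast; ring
  rw [h3]

theorem ct_zero (y : ℤ) (R : ℝ) (hR : 0 < R) (x : ℤ) (hx : R ≤ |(x : ℝ) - y|) : ct y R x = 0 := by
  unfold ct
  rw [max_eq_left]
  have : 1 ≤ |(x : ℝ) - y| / R := by rwa [le_div_iff₀ hR, one_mul]
  linarith

theorem osc (h1 : P_REC) (h2 : P_WLK) : P_OSC := by
  intro Γ _ S _ _ _ hS hgen h hom t ht K
  have h10 : h 1 = 0 := by
    have := hom 1 1
    rw [mul_one] at this
    omega
  have hinv : ∀ x, h x⁻¹ = -h x := by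
    intro x
    have := hom x x⁻¹
    rw [mul_inv_cancel, h10] at this
    omega
  let mx : ℤ → S → ℤ := fun z s => z + h s
  let inv : S → S := fun s => ⟨(s : Γ)⁻¹, hS _ s.2⟩
  have hfold : ∀ (l : List S) (z : ℤ), l.foldl mx z = z + h (l.map (fun s : S => (s : Γ))).prod := by
    intro l
    induction l with
    | nil => intro z; simp [h10]
    | cons s l ih =>
      intro z
      rw [List.foldl_cons, ih, List.map_cons, List.prod_cons, hom]
      simp only [mx]
      ring
  have hzpow : ∀ n : ℤ, h (t ^ n) = n := by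
    have hnat : ∀ n : ℕ, h (t ^ n) = n := by
      intro n
      induction n with
      | zero => simp [h10]
      | succ n ih => rw [pow_succ, hom, ih, ht]; push_cast; ring
    intro n
    obtain ⟨m, rfl | rfl⟩ := n.eq_nat_or_neg
    · rw [zpow_natCast, hnat]
    · rw [zpow_neg, zpow_natCast, hinv, hnat]
  -- the bound of the increments
  obtain ⟨L, hL⟩ : ∃ L : ℕ, ∀ s : S, |((h s : ℤ) : ℝ)| ≤ L := by
    refine ⟨∑ s : S, (h s).natAbs, fun s => ?_⟩
    have h3 : (h s).natAbs ≤ ∑ s : S, (h s).natAbs :=
      Finset.single_le_sum (f := fun s : S => (h s).natAbs) (fun _ _ => Nat.zero_le _)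
        (Finset.mem_univ s)
    calc |((h s : ℤ) : ℝ)| = (((h s).natAbs : ℕ) : ℝ) := by
          rw [Nat.cast_natAbs, Int.cast_abs]
      _ ≤ _ := by exact_mod_cast h3
  have hrec := h1 ℤ S mx inv
    (by intro s; apply Subtype.ext; simp [inv])
    (by intro x s; simp only [mx, inv]; rw [hinv]; ring)
    (by
      intro x y
      obtain ⟨l, hl⟩ := exists_word S hS hgen (t ^ (y - x))
      obtain ⟨c, k, hck⟩ := exists_pth mx x l
      refine ⟨c, k, ?_⟩
      rw [hck, hfold, hl, hzpow]
      ring)
    (-K)
    (by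
      intro ε hε
      -- the radius
      obtain ⟨R, hR⟩ : ∃ R : ℕ, max ((L : ℝ) + 1) (4 * (Fintype.card S : ℝ) * L ^ 2 / ε) ≤ R :=
        exists_nat_ge _
      have hR1 : (L : ℝ) + 1 ≤ R := (le_max_left _ _).trans hR
      have hR2 : 4 * (Fintype.card S : ℝ) * L ^ 2 / ε ≤ R := (le_max_right _ _).trans hR
      have hL0 : (0 : ℝ) ≤ L := Nat.cast_nonneg L
      have hR0 : (0 : ℝ) < R := by linarith
      refine ⟨ct (-K) R, ?_, ?_, ?_, ?_, ?_⟩
      · unfold ct
        simp
      · intro x
        exact le_max_left _ _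
      · intro x
        unfold ct
        apply max_le zero_le_one
        have : 0 ≤ |(x : ℝ) - ((-K : ℤ) : ℝ)| / R := by positivity
        linarith
      · apply (Set.finite_Icc (-K - R : ℤ) (-K + R)).subset
        intro x hx
        by_contra hcon
        apply hx
        apply ct_zero _ _ hR0
        rw [Set.mem_Icc, not_and_or] at hcon
        have h4 : (R : ℤ) ≤ |x - (-K)| := by
          rcases hcon with h5 | h5
          · push Not at h5
            rw [le_abs]
            right
            omega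
          · push Not at h5
            rw [le_abs]
            left
            omega
        exact_mod_cast h4
      · intro A
        -- restrict to a window
        set I := Finset.Icc (-K - (R + L) : ℤ) (-K + (R + L)) with hI
        have hzero : ∀ x : ℤ, x ∉ I → ∀ s : S, (ct (-K) R x - ct (-K) R (mx x s)) ^ 2 = 0 := by
          intro x hx s
          have h4 : (R : ℤ) + L ≤ |x - (-K)| := by
            rw [hI, Finset.mem_Icc, not_and_or] at hx
            rcases hx with h5 | h5
            · push Not at h5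
              rw [le_abs]
              right
              omega
            · push Not at h5
              rw [le_abs]
              left
              omega
          have h4' : (R : ℝ) + L ≤ |(x : ℝ) - ((-K : ℤ) : ℝ)| := by exact_mod_cast h4
          have h6 : (R : ℝ) ≤ |((x + h s : ℤ) : ℝ) - ((-K : ℤ) : ℝ)| := by
            have h7 := hL s
            have h8 : |(x : ℝ) - ((-K : ℤ) : ℝ)| ≤
                |((x + h s : ℤ) : ℝ) - ((-K : ℤ) : ℝ)| + |((h s : ℤ) : ℝ)| := by
              calc |(x : ℝ) - ((-K : ℤ) : ℝ)| =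
                    |(((x + h s : ℤ) : ℝ) - ((-K : ℤ) : ℝ)) - ((h s : ℤ) : ℝ)| := by
                    congr 1
                    push_cast
                    ring
                _ ≤ _ := abs_sub _ _
            linarith
          rw [ct_zero _ _ hR0 x (by linarith), ct_zero _ _ hR0 (mx x s) h6]
          norm_num
        have hterm : ∀ x : ℤ, ∀ s : S,
            (ct (-K) R x - ct (-K) R (mx x s)) ^ 2 ≤ ((L : ℝ) / R) ^ 2 := by
          intro x s
          rw [← sq_abs]
          apply pow_le_pow_left₀ (abs_nonneg _)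
          refine (ct_lip _ _ hR0 x (h s)).trans ?_
          exact div_le_div_of_nonneg_right (hL s) hR0.le
        calc ∑ x ∈ A, ∑ s : S, (ct (-K) R x - ct (-K) R (mx x s)) ^ 2
            ≤ ∑ x ∈ I, ∑ s : S, (ct (-K) R x - ct (-K) R (mx x s)) ^ 2 := by
              calc ∑ x ∈ A, ∑ s : S, (ct (-K) R x - ct (-K) R (mx x s)) ^ 2
                  ≤ ∑ x ∈ A ∪ I, ∑ s : S, (ct (-K) R x - ct (-K) R (mx x s)) ^ 2 := by
                    apply Finset.sum_le_sum_of_subset_of_nonneg Finset.subset_union_left
                    intro x _ _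
                    exact Finset.sum_nonneg (fun _ _ => sq_nonneg _)
                _ = ∑ x ∈ I, ∑ s : S, (ct (-K) R x - ct (-K) R (mx x s)) ^ 2 := by
                    symm
                    apply Finset.sum_subset Finset.subset_union_right
                    intro x _ hx
                    exact Finset.sum_eq_zero (fun s _ => hzero x hx s)
          _ ≤ ∑ x ∈ I, ∑ s : S, ((L : ℝ) / R) ^ 2 :=
              Finset.sum_le_sum (fun x _ => Finset.sum_le_sum (fun s _ => hterm x s))
          _ = (I.card : ℝ) * ((Fintype.card S : ℝ) * ((L : ℝ) / R) ^ 2) := by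
              simp [Finset.sum_const]
          _ ≤ (4 * (R : ℝ)) * ((Fintype.card S : ℝ) * ((L : ℝ) / R) ^ 2) := by
              apply mul_le_mul_of_nonneg_right _ (by positivity)
              have h9 : (I.card : ℤ) ≤ 4 * R := by
                rw [hI, Int.card_Icc]
                have h10 : (L : ℤ) + 1 ≤ R := by exact_mod_cast hR1
                omega
              exact_mod_cast h9
          _ = 4 * (Fintype.card S : ℝ) * L ^ 2 / R := by
              field_simp
          _ ≤ ε := by
              rw [div_le_iff₀ hε] at hR2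
              rw [div_le_iff₀ hR0]
              linarith)
    0
  have hw := h2 ℤ S mx 0 (-K) hrec
  -- the walk hits
  have hpos : ∀ (c : ℕ → S) (n : ℕ), h (pos c n) = pth mx 0 c n := by
    intro c n
    induction n with
    | zero => exact h10
    | succ n ih =>
      change h (pth (mg S) 1 c n * (c n : Γ)) = pth mx 0 c n + h (c n)
      rw [hom, ← ih]
      rfl
  set N : Set (ℕ → S) := {c | ∀ k, pth mx 0 c k ≠ -K} with hN
  have hN0 : mlaw S N = 0 := by
    apply le_antisymm _ zero_le
    apply le_of_forall_pos_le_add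
    intro δ hδ
    obtain ⟨t0, ht0⟩ := hw δ hδ
    have h3 := ht0 t0 le_rfl
    rw [zero_add]
    refine le_trans ?_ h3
    have h4 : plaw S (Set.univ ×ˢ N) = mlaw S N := by
      unfold plaw
      rw [Measure.prod_prod, measure_univ, one_mul]
    rw [← h4]
    apply measure_mono
    rintro ⟨a, c⟩ ⟨_, hc⟩ ⟨k, _, hk⟩
    exact hc k hk
  have hcomp : mlaw S {c | ∃ n, h (pos c n) ≤ -K}ᶜ = 0 := by
    apply measure_mono_null _ hN0
    intro c hc k hk
    apply hc
    refine ⟨k, ?_⟩
    rw [hpos, hk]
  apply le_antisymm prob_le_one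
  calc (1 : ℝ≥0∞) = mlaw S Set.univ := measure_univ.symm
    _ = mlaw S ({c | ∃ n, h (pos c n) ≤ -K} ∪ {c | ∃ n, h (pos c n) ≤ -K}ᶜ) := by
        rw [Set.union_compl_self]
    _ ≤ mlaw S {c | ∃ n, h (pos c n) ≤ -K} + mlaw S {c | ∃ n, h (pos c n) ≤ -K}ᶜ :=
        measure_union_le _ _
    _ = mlaw S {c | ∃ n, h (pos c n) ≤ -K} := by rw [hcomp, add_zero]

end Pool.Agent.W2helper66.FD
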