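import Pool.Agent.W2helper75.FD.Stm2

/-!
# Project FD: words in the generators
-/

set_option autoImplicit false

open MeasureTheory ProbabilityTheory Filter Topology
open scoped ENNReal NNReal

namespace Pool.Agent.W2helper66.FD

open Pool.Agent.W2helper75.FD

/-- every element is the product of a word in the generators -/
theorem exists_word {Γ : Type} [Group Γ] (S : Finset Γ) (hS : ∀ s ∈ S, s⁻¹ ∈ S)
    (hgen : Subgroup.closure (S : Set Γ) = ⊤) (g : Γ) :
    ∃ l : List S, (l.map (fun s : S => (s : Γ))).prod = g := by
  have hg : g ∈ Submonoid.closure ((S : Set Γ)) := by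
    have h1 : g ∈ (Subgroup.closure (S : Set Γ)).toSubmonoid := by
      rw [hgen]; trivial
    rw [Subgroup.closure_toSubmonoid] at h1
    have h2 : ((S : Set Γ)) ∪ ((S : Set Γ))⁻¹ = (S : Set Γ) := by
      apply Set.union_eq_self_of_subset_right
      intro x hx
      have h3 := hS _ (Finset.mem_coe.1 (Set.mem_inv.1 hx))
      rw [inv_inv] at h3
      exact Finset.mem_coe.2 h3
    rw [h2] at h1
    exact h1
  induction hg using Submonoid.closure_induction with
  | mem x hx => exact ⟨[⟨x, Finset.mem_coe.1 hx⟩], by simp⟩
  | one => exact ⟨[], by simp⟩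
  | mul x y _ _ hx hy =>
    obtain ⟨l, hl⟩ := hx
    obtain ⟨l', hl'⟩ := hy
    exact ⟨l ++ l', by rw [List.map_append, List.prod_append, hl, hl']⟩

/-- the path along a word -/
theorem pth_eq_foldl {V S : Type} (mv : V → S → V) (v : V) (c : ℕ → S) (l : List S)
    (hc : ∀ (i : ℕ) (hi : i < l.length), c i = l[i]) :
    pth mv v c l.length = l.foldl mv v := by
  induction l using List.reverseRecOn with
  | nil => rfl
  | append_singleton l s ih =>
    rw [List.length_append, List.length_singleton, List.foldl_append, List.foldl_cons,
      List.foldl_nil]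
    change mv (pth mv v c l.length) (c l.length) = _
    rw [ih, hc l.length (by simp)]
    · simp
    · intro i hi
      rw [hc i (by simp; omega)]
      simp [List.getElem_append_left hi]

theorem exists_pth {V S : Type} [Nonempty S] (mv : V → S → V) (v : V) (l : List S) :
    ∃ (c : ℕ → S) (k : ℕ), pth mv v c k = l.foldl mv v := by
  classical
  refine ⟨fun i => if h : i < l.length then l[i] else Classical.arbitrary S, l.length, ?_⟩
  apply pth_eq_foldl
  intro i hi
  simp [hi]

end Pool.Agent.W2helper66.FD
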